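import Mathlib
import Pool.Agent.Y166.HO.Rec

/-!
# Degree sequences of rational maps which are not piecewise P-recursive

For every field `K` and every `N ≥ 4` there is a dominant rational self-map `f` of `ℙ^N` (it is even
regular on the affine space `X₀ ≠ 0`, since `f₀ = X₀ ^ deg f`), with `3 ^ n ≤ deg (f^n) ≤ 53 · 3 ^ n`,
such that along every arithmetic progression `a + m n` the degrees are not given by finitely many
P-recursive (holonomic) sequences, i.e. sequences with a linear recurrence with polynomial
coefficients. For `a = 0` this is a statement about the degree sequence of the iterate `f^m`. In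
particular the degree sequence is not given by finitely many linear recurrences with constant
coefficients.

The map is the one of the earlier result `FinitelyManyRecurrencesFail` of this repository
(`Pool.Agent.H923R2`). New is the closure theory of P-recursive sequences: the germs at infinity of
sequences form a ring over the field of rational functions, a P-recursive sequence lies in a
finite-dimensional space of germs which is invariant under the shift, such spaces are closed under
sums and products, and the sequences in a finite-dimensional complex vector space of such sequences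
have a common recurrence, so that they vanish from some place on as soon as they vanish on a long
interval.
-/

set_option autoImplicit false

open MvPolynomial H923R2.DegMap Pool.Agent.Y166.HO

namespace Pool.Agent.Results.MP_3d9fc2_ag.NotPiecewiseHolonomic

theorem result (K : Type*) [Field K] (N : ℕ) (hN : 4 ≤ N) :
    ∃ f : RatMap K N, f.Dominant ∧ f.poly 0 = X 0 ^ f.degree ∧
      ∃ e : ℕ → ℕ, f.IsDegreeSequence e ∧ (∀ n, 3 ^ n ≤ e n ∧ e n ≤ 53 * 3 ^ n) ∧
        (∀ a m : ℕ, 1 ≤ m → ¬ FinitelyManyPRec fun n => e (a + m * n)) ∧
        ¬ FinitelyManyRec e := by
  obtain ⟨M, rfl⟩ : ∃ M, N = M + 4 := ⟨N - 4, by omega⟩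
  refine ⟨f K M, dominant K M, ?_, H923R2.DegNT.e, isDegreeSequence K M, e_growth, e_not, ?_⟩
  · have h0 : (0 : Fin (M + 4 + 1)) = i0 M := rfl
    rw [h0]
    simp only [f, H923R2.DegMap.F, mk_0]
  · rintro ⟨r, L, ι, hL, hE⟩
    refine e_not 0 1 le_rfl ⟨r, L, ι, fun i => prec_of_linRec (hL i), fun n hn => ?_⟩
    have h := hE n hn
    simpa using h

end Pool.Agent.Results.MP_3d9fc2_ag.NotPiecewiseHolonomic
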